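import Mathlib

/-!
# The inequality for one window
-/

set_option autoImplicit false

namespace Pool.Agent.H64.BH

private lemma quarter {y : ℝ} (hy : 0 ≤ y) :
    (1 + y) ^ (1 / 4 : ℝ) ≤ 1 + y ^ (1 / 4 : ℝ) := by
  have h := Real.rpow_le_rpow (z := (1 / 4 : ℝ)) (by positivity : (0:ℝ) ≤ 1 + y)
    (?_ : 1 + y ≤ (1 + y ^ (1 / 4 : ℝ)) ^ (4 : ℝ)) (by norm_num)
  · rw [← Real.rpow_mul (by positivity)] at h
    norm_num at h
    norm_num
    exact h
  · have h1 : y = (y ^ (1 / 4 : ℝ)) ^ (4 : ℕ) := by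
      rw [← Real.rpow_natCast, ← Real.rpow_mul hy]
      norm_num
    have h2 : 0 ≤ y ^ (1 / 4 : ℝ) := Real.rpow_nonneg hy _
    set a := y ^ (1 / 4 : ℝ) with ha
    rw [show ((4 : ℝ)) = ((4 : ℕ) : ℝ) by norm_num, Real.rpow_natCast]
    rw [h1]
    nlinarith [pow_nonneg h2 2, pow_nonneg h2 3]

/-- The inequality for the exponents, first kind. -/
private lemma lin_TV {n δ p0 p x υ κ e : ℝ} (hn : 0 ≤ n) (hδ : 0 ≤ δ) (hp0 : 0 ≤ p0)
    (hp : 0 ≤ p) (hυ : 0 ≤ υ) (h1 : p ≤ n + υ + p0) (h2 : p0 ≤ υ + p) (hκ : 0 < κ) (he : 0 < e)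
    (hκe : κ + e ≤ 1 / 4) (hx : -n ≤ x) (hc : p0 ≤ 4 * δ ∨ p ≤ 4 * δ ∨ x ≤ δ + 3 / 8 * p) :
    (x ≤ (δ + p0) / 2 → (δ + p0) / 2 * κ - x * (1 / 2 + κ) + x * (1 + κ) ≤
      n + υ + (δ + p0) / 2 * κ + (p0 + (δ + p0) / 2) * e + δ / 2 + 3 / 16 * p0 +
        ((δ + p0) / 2 - x) * e) ∧
    ((δ + p0) / 2 ≤ x → (δ + p0) / 2 * 1 - x * (1 / 2 + 1) + x * (1 + κ) ≤
      n + υ + (δ + p0) / 2 * κ + (p0 + (δ + p0) / 2) * e + δ / 2 + 3 / 16 * p0 +
        ((δ + p0) / 2 - x) * e) := by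
  set x0 := (δ + p0) / 2 with hx0
  have hx0' : 0 ≤ x0 := by positivity
  have e1 : 0 ≤ (p0 + x0) * e := by positivity
  constructor
  · intro hxx
    have e2 : 0 ≤ (x0 - x) * e := mul_nonneg (by linarith) he.le
    have key : x / 2 ≤ n + υ + δ / 2 + 3 / 16 * p0 := by
      rcases hc with hc | hc | hc
      · linarith
      · linarith
      · linarith
    nlinarith
  · intro hxx
    have e3 : (x - x0) * (κ + e) ≤ (x - x0) * (1 / 4) :=
      mul_le_mul_of_nonneg_left hκe (by linarith)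
    have key : x0 / 2 ≤ n + υ + δ / 2 + 3 / 16 * p0 + (x - x0) * (1 / 4) := by
      rcases hc with hc | hc | hc
      · linarith
      · linarith
      · linarith
    nlinarith

/-- The inequality for the exponents, second kind. -/
private lemma lin_WB {n δ p0 p x υ κ e : ℝ} (hn : 0 ≤ n) (hδ : 0 ≤ δ) (hp0 : 0 ≤ p0)
    (hp : 0 ≤ p) (hυ : 0 ≤ υ) (h1 : p ≤ n + υ + p0) (h2 : p0 ≤ υ + p) (hκ : 0 < κ) (he : 0 < e)
    (hκe : κ + e ≤ 1 / 4) (hx : -n ≤ x) (hc : 4 * δ ≤ p0) :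
    ((x ≤ (δ + p0) / 2 → (δ + p0) / 2 * κ - x * (1 / 2 + κ) +
        ((p + x) * e + (δ / 2 + x / 2 + 3 / 16 * p)) ≤
      n + υ + (δ + p0) / 2 * κ + (p0 + (δ + p0) / 2) * e + δ / 2 + 3 / 16 * p0 +
        ((δ + p0) / 2 - x) * e) ∧
    ((δ + p0) / 2 ≤ x → (δ + p0) / 2 * 1 - x * (1 / 2 + 1) +
        ((p + x) * e + (δ / 2 + x / 2 + 3 / 16 * p)) ≤
      n + υ + (δ + p0) / 2 * κ + (p0 + (δ + p0) / 2) * e + δ / 2 + 3 / 16 * p0 +
        ((δ + p0) / 2 - x) * e)) ∧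
    ((x ≤ (δ + p0) / 2 → (δ + p0) / 2 * κ - x * (1 / 2 + κ) +
        ((p + x) * e + (δ / 2 + x - 1 / 8 * p)) ≤
      n + υ + (δ + p0) / 2 * κ + (p0 + (δ + p0) / 2) * e + δ / 2 + 3 / 16 * p0 +
        ((δ + p0) / 2 - x) * e) ∧
    ((δ + p0) / 2 ≤ x → (δ + p0) / 2 * 1 - x * (1 / 2 + 1) +
        ((p + x) * e + (δ / 2 + x - 1 / 8 * p)) ≤
      n + υ + (δ + p0) / 2 * κ + (p0 + (δ + p0) / 2) * e + δ / 2 + 3 / 16 * p0 +
        ((δ + p0) / 2 - x) * e)) := by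
  set x0 := (δ + p0) / 2 with hx0
  have hx0' : 0 ≤ x0 := by positivity
  have hκ4 : κ ≤ 1 / 4 := by linarith
  have he4 : e ≤ 1 / 4 := by linarith
  have a1 : p * e ≤ (n + υ) * (1 / 4) + p0 * e := by
    have : p * e ≤ (n + υ + p0) * e := mul_le_mul_of_nonneg_right h1 he.le
    have h3 : (n + υ) * e ≤ (n + υ) * (1 / 4) := mul_le_mul_of_nonneg_left he4 (by linarith)
    linarith
  have a2 : -(x * κ) ≤ n * (1 / 4) := by
    have h3 : -(x * κ) ≤ n * κ := by nlinarith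
    have h4 : n * κ ≤ n * (1 / 4) := mul_le_mul_of_nonneg_left hκ4 hn
    linarith
  have a3 : 0 ≤ x0 * κ := by positivity
  have a4 : x0 / 2 - 1 / 8 * p ≤ 3 / 16 * p0 + υ * (1 / 8) := by
    have : x0 = (δ + p0) / 2 := hx0
    linarith
  refine ⟨⟨fun hxx => ?_, fun hxx => ?_⟩, ⟨fun hxx => ?_, fun hxx => ?_⟩⟩
  · have e2 : x * e ≤ x0 * e := mul_le_mul_of_nonneg_right hxx he.le
    have e3 : 0 ≤ (x0 - x) * e := mul_nonneg (by linarith) he.le
    nlinarith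
  · have e3 : (x - x0) * (2 * e) ≤ (x - x0) * (1 / 2) :=
      mul_le_mul_of_nonneg_left (by linarith) (by linarith)
    nlinarith
  · have e2 : x * e ≤ x0 * e := mul_le_mul_of_nonneg_right hxx he.le
    have e3 : 0 ≤ (x0 - x) * e := mul_nonneg (by linarith) he.le
    nlinarith
  · have e3 : (x - x0) * (2 * e) ≤ (x - x0) * (1 / 2) :=
      mul_le_mul_of_nonneg_left (by linarith) (by linarith)
    nlinarith

/-- The inequality for one window. -/
theorem window {n : ℕ} {d P0 P X κ e w CT CW U : ℝ} (hd : 1 ≤ d) (hP0 : 1 ≤ P0) (hP : 1 ≤ P)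
    (hU : 1 ≤ U) (h1 : P ≤ 2 ^ n * U * P0) (h2 : P0 ≤ U * P) (hκ : 0 < κ) (he : 0 < e)
    (hκe : κ + e ≤ 1 / 4) (hX : Real.exp (-n) ≤ X) (hCT : 0 ≤ CT) (hCW : 0 ≤ CW)
    (hTV : w ≤ CT * X ^ (1 + κ))
    (hWB : d ^ 4 ≤ P → d * P ^ (3 / 8 : ℝ) ≤ X → w ≤ CW * (P * X) ^ e *
      (d ^ (1 / 2 : ℝ) * X ^ (1 / 2 : ℝ) * P ^ (3 / 16 : ℝ) *
        (1 + X ^ 2 / P ^ (5 / 4 : ℝ)) ^ (1 / 4 : ℝ))) :
    Real.sqrt (d * P0) ^ (if X ≤ Real.sqrt (d * P0) then κ else 1) *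
      X ^ (-(1 / 2 + (if X ≤ Real.sqrt (d * P0) then κ else 1))) * w ≤
    (CT + 2 * CW) * (Real.exp n * U) * (Real.sqrt (d * P0) ^ κ * (P0 * Real.sqrt (d * P0)) ^ e *
      (d ^ (1 / 2 : ℝ) * P0 ^ (3 / 16 : ℝ))) * (Real.sqrt (d * P0) / X) ^ e := by
  obtain ⟨δ, rfl⟩ : ∃ δ, d = Real.exp δ := ⟨Real.log d, (Real.exp_log (by linarith)).symm⟩
  obtain ⟨p0, rfl⟩ : ∃ δ, P0 = Real.exp δ := ⟨Real.log P0, (Real.exp_log (by linarith)).symm⟩
  obtain ⟨p, rfl⟩ : ∃ δ, P = Real.exp δ := ⟨Real.log P, (Real.exp_log (by linarith)).symm⟩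
  obtain ⟨υ, rfl⟩ : ∃ δ, U = Real.exp δ := ⟨Real.log U, (Real.exp_log (by linarith)).symm⟩
  obtain ⟨x, rfl⟩ : ∃ δ, X = Real.exp δ :=
    ⟨Real.log X, (Real.exp_log (lt_of_lt_of_le (Real.exp_pos _) hX)).symm⟩
  have hδ : 0 ≤ δ := Real.one_le_exp_iff.1 hd
  have hp0 : 0 ≤ p0 := Real.one_le_exp_iff.1 hP0
  have hp : 0 ≤ p := Real.one_le_exp_iff.1 hP
  have hυ : 0 ≤ υ := Real.one_le_exp_iff.1 hU
  have hx : -(n : ℝ) ≤ x := Real.exp_le_exp.1 hX
  have hn : (0 : ℝ) ≤ n := Nat.cast_nonneg n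
  have g1 : p ≤ n + υ + p0 := by
    refine Real.exp_le_exp.1 (h1.trans ?_)
    rw [Real.exp_add, Real.exp_add]
    gcongr
    rw [← Real.exp_one_pow]
    exact pow_le_pow_left₀ (by norm_num) (by linarith [Real.exp_one_gt_d9]) n
  have g2 : p0 ≤ υ + p := by
    refine Real.exp_le_exp.1 ?_
    rw [Real.exp_add]
    exact h2
  have hs : Real.sqrt (Real.exp δ * Real.exp p0) = Real.exp ((δ + p0) / 2) := by
    rw [← Real.exp_add, Real.exp_half]
  rw [hs]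
  have hif : (Real.exp x ≤ Real.exp ((δ + p0) / 2)) ↔ x ≤ (δ + p0) / 2 := Real.exp_le_exp
  simp only [hif]
  have hR : (CT + 2 * CW) * (Real.exp n * Real.exp υ) * (Real.exp ((δ + p0) / 2) ^ κ *
      (Real.exp p0 * Real.exp ((δ + p0) / 2)) ^ e *
      (Real.exp δ ^ (1 / 2 : ℝ) * Real.exp p0 ^ (3 / 16 : ℝ))) *
        (Real.exp ((δ + p0) / 2) / Real.exp x) ^ e =
      (CT + 2 * CW) * Real.exp (n + υ + (δ + p0) / 2 * κ + (p0 + (δ + p0) / 2) * e + δ / 2 +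
        3 / 16 * p0 + ((δ + p0) / 2 - x) * e) := by
    rw [← Real.exp_sub, ← Real.exp_add p0, ← Real.exp_mul, ← Real.exp_mul, ← Real.exp_mul,
      ← Real.exp_mul, ← Real.exp_mul, ← Real.exp_add, ← Real.exp_add, ← Real.exp_add,
      ← Real.exp_add, mul_assoc, mul_assoc, ← Real.exp_add, ← Real.exp_add]
    congr 2
    ring
  rw [hR]
  set RR := (n : ℝ) + υ + (δ + p0) / 2 * κ + (p0 + (δ + p0) / 2) * e + δ / 2 +
        3 / 16 * p0 + ((δ + p0) / 2 - x) * e with hRR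
  set σ : ℝ := if x ≤ (δ + p0) / 2 then κ else 1 with hσ
  rw [← Real.exp_mul, ← Real.exp_mul, ← Real.exp_add]
  by_cases hc : p0 ≤ 4 * δ ∨ p ≤ 4 * δ ∨ x ≤ δ + 3 / 8 * p
  · obtain ⟨l1, l2⟩ := lin_TV hn hδ hp0 hp hυ g1 g2 hκ he hκe hx hc
    have key : (δ + p0) / 2 * σ + x * -(1 / 2 + σ) + x * (1 + κ) ≤ RR := by
      rw [hσ]
      split_ifs with h
      · have := l1 h
        linarith
      · have := l2 (le_of_not_ge h)
        linarith
    calc Real.exp ((δ + p0) / 2 * σ + x * -(1 / 2 + σ)) * w ≤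
        Real.exp ((δ + p0) / 2 * σ + x * -(1 / 2 + σ)) * (CT * Real.exp x ^ (1 + κ)) := by
          gcongr
      _ = CT * Real.exp ((δ + p0) / 2 * σ + x * -(1 / 2 + σ) + x * (1 + κ)) := by
          rw [← Real.exp_mul, Real.exp_add ((δ + p0) / 2 * σ + x * -(1 / 2 + σ))]
          ring
      _ ≤ (CT + 2 * CW) * Real.exp RR := by
          refine mul_le_mul (by linarith) (Real.exp_le_exp.2 key) (Real.exp_pos _).le (by linarith)
  · push Not at hc
    obtain ⟨hc1, hc2, hc3⟩ := hc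
    obtain ⟨⟨l1, l2⟩, l3, l4⟩ := lin_WB hn hδ hp0 hp hυ g1 g2 hκ he hκe hx hc1.le
    have hw := hWB ?_ ?_
    · have hy : (1 + Real.exp x ^ 2 / Real.exp p ^ (5 / 4 : ℝ)) ^ (1 / 4 : ℝ) ≤
          1 + Real.exp (x / 2 - 5 / 16 * p) := by
        refine (quarter (by positivity)).trans (le_of_eq ?_)
        congr 1
        rw [← Real.exp_mul, ← Real.exp_nat_mul, ← Real.exp_sub, ← Real.exp_mul]
        congr 1
        push_cast
        ring
      have hw2 : w ≤ CW * (Real.exp ((p + x) * e + (δ / 2 + x / 2 + 3 / 16 * p)) +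
          Real.exp ((p + x) * e + (δ / 2 + x - 1 / 8 * p))) := by
        refine hw.trans ?_
        calc CW * (Real.exp p * Real.exp x) ^ e * (Real.exp δ ^ (1 / 2 : ℝ) *
              Real.exp x ^ (1 / 2 : ℝ) * Real.exp p ^ (3 / 16 : ℝ) *
              (1 + Real.exp x ^ 2 / Real.exp p ^ (5 / 4 : ℝ)) ^ (1 / 4 : ℝ)) ≤
            CW * (Real.exp p * Real.exp x) ^ e * (Real.exp δ ^ (1 / 2 : ℝ) *
              Real.exp x ^ (1 / 2 : ℝ) * Real.exp p ^ (3 / 16 : ℝ) *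
              (1 + Real.exp (x / 2 - 5 / 16 * p))) := by
              gcongr
          _ = _ := by
              rw [← Real.exp_add, ← Real.exp_mul, ← Real.exp_mul, ← Real.exp_mul,
                ← Real.exp_mul, ← Real.exp_add, ← Real.exp_add]
              rw [mul_assoc CW, ← mul_assoc (Real.exp _) (Real.exp _) (1 + _), ← Real.exp_add,
                mul_add, mul_one, ← Real.exp_add]
              congr 2
              · congr 1
                ring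
              · congr 1
                ring
      have k1 : (δ + p0) / 2 * σ + x * -(1 / 2 + σ) +
          ((p + x) * e + (δ / 2 + x / 2 + 3 / 16 * p)) ≤ RR := by
        rw [hσ]
        split_ifs with h
        · have := l1 h
          linarith
        · have := l2 (le_of_not_ge h)
          linarith
      have k2 : (δ + p0) / 2 * σ + x * -(1 / 2 + σ) +
          ((p + x) * e + (δ / 2 + x - 1 / 8 * p)) ≤ RR := by
        rw [hσ]
        split_ifs with h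
        · have := l3 h
          linarith
        · have := l4 (le_of_not_ge h)
          linarith
      calc Real.exp ((δ + p0) / 2 * σ + x * -(1 / 2 + σ)) * w ≤
          Real.exp ((δ + p0) / 2 * σ + x * -(1 / 2 + σ)) *
            (CW * (Real.exp ((p + x) * e + (δ / 2 + x / 2 + 3 / 16 * p)) +
          Real.exp ((p + x) * e + (δ / 2 + x - 1 / 8 * p)))) := by
            gcongr
        _ = CW * (Real.exp ((δ + p0) / 2 * σ + x * -(1 / 2 + σ) +
          ((p + x) * e + (δ / 2 + x / 2 + 3 / 16 * p))) +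
            Real.exp ((δ + p0) / 2 * σ + x * -(1 / 2 + σ) +
          ((p + x) * e + (δ / 2 + x - 1 / 8 * p)))) := by
            rw [Real.exp_add ((δ + p0) / 2 * σ + x * -(1 / 2 + σ)),
              Real.exp_add ((δ + p0) / 2 * σ + x * -(1 / 2 + σ))]
            ring
        _ ≤ CW * (Real.exp RR + Real.exp RR) := by
            gcongr
        _ ≤ (CT + 2 * CW) * Real.exp RR := by
            nlinarith [Real.exp_pos RR]
    · rw [← Real.exp_nat_mul]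
      exact Real.exp_le_exp.2 (by push_cast; linarith)
    · rw [← Real.exp_mul, ← Real.exp_add]
      exact Real.exp_le_exp.2 (by linarith)

end Pool.Agent.H64.BH
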