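import Pool.Agent.H29.BH.Targets2

/-!
# (IN) the integral representation of the weights
-/

set_option autoImplicit false

open NumberField NumberField.InfinitePlace NumberField.Units
  NumberField.Units.dirichletUnitTheorem MeasureTheory Set Filter Complex
open scoped nonZeroDivisors ENNReal

namespace Pool.Agent.H64.BH

open Pool.Agent.H29.BH
open Pool.Agent.H25.HK Pool.Agent.H23.LB Pool.Agent.H23.LC Pool.Agent.H29.DW
open Pool.Agent.H28.RC (Rep ft idl)

variable {K : Type} [Field K] [NumberField K]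

/-- the support of the kernel -/
private lemma pk_ne {r : Bool} {w : ℂ} (h : pk r w ≠ 0) : 7 / 8 ≤ ‖w‖ ∧ ‖w‖ ≤ 17 / 8 := by
  by_contra hc
  apply h
  have h0 : {p : ℂ | 1 ≤ ‖p‖ ∧ ‖p‖ ≤ 2 ∧ ‖w - p‖ ≤ 1 / 8} = ∅ := by
    ext p
    simp only [Set.mem_ofPred_eq, mem_empty_iff_false, iff_false, not_and]
    intro h1 h2 h3
    apply hc
    have h4 : ‖w‖ ≤ ‖w - p‖ + ‖p‖ := by
      calc ‖w‖ = ‖(w - p) + p‖ := by rw [sub_add_cancel]
        _ ≤ _ := norm_add_le _ _
    have h5 : ‖p‖ ≤ ‖w‖ + ‖w - p‖ := by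
      calc ‖p‖ = ‖w - (w - p)‖ := by rw [sub_sub_cancel]
        _ ≤ _ := norm_sub_le _ _
    constructor <;> linarith
  unfold pk
  rw [h0, measure_empty]

private lemma PK_ne {w : InfinitePlace K → ℂ} (h : PK w ≠ 0) (v : InfinitePlace K) :
    7 / 8 ≤ ‖w v‖ ∧ ‖w v‖ ≤ 17 / 8 := by
  unfold PK at h
  rw [Finset.prod_ne_zero_iff] at h
  refine pk_ne (r := rv v) fun h0 => h v (Finset.mem_univ v) ?_
  rw [h0]
  rfl

private lemma PK_zero (y : InfinitePlace K → ℝ) : PK (sy y (0 : K)) = 0 := by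
  by_contra h
  obtain ⟨v⟩ : Nonempty (InfinitePlace K) := inferInstance
  have h1 := (PK_ne h v).1
  unfold sy at h1
  rw [map_zero, zero_mul, norm_zero] at h1
  norm_num at h1

omit [NumberField K] in
private lemma norm_sy (y : InfinitePlace K → ℝ) (x : K) (v : InfinitePlace K) :
    ‖sy y x v‖ = v x * Real.exp (y v / 2) := by
  unfold sy
  rw [norm_mul, Complex.norm_real, Real.norm_eq_abs, abs_of_pos (Real.exp_pos _),
    InfinitePlace.norm_embedding_eq]

/-- the quasi-character at the scaled point -/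
private lemma GG_sy (k : InfinitePlace K → ℤ) (ν : InfinitePlace K → ℝ) (σ t : ℝ)
    (y : InfinitePlace K → ℝ) {x : K} (hx : x ≠ 0) :
    GG k (mp ν σ t) (sy y x) = ag k x * ph ν x *
      cexp (((∑ v, (v.mult : ℝ) * ν v * (y v / 2) : ℝ) : ℂ) * I) *
        cexp (-(1 / 2 + σ + t * I) * ((Real.log (nv y x) : ℝ) : ℂ)) := by
  have hvx : ∀ v : InfinitePlace K, 0 < v x := fun v => InfinitePlace.pos_iff.2 hx
  have hlog : ∀ v : InfinitePlace K, Real.log ‖sy y x v‖ = Real.log (v x) + y v / 2 := by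
    intro v
    rw [norm_sy, Real.log_mul (hvx v).ne' (Real.exp_pos _).ne', Real.log_exp]
  have hnv : Real.log (nv y x) = ∑ v : InfinitePlace K, (v.mult : ℝ) * (Real.log (v x) + y v / 2) := by
    unfold nv
    rw [Real.log_prod]
    · refine Finset.sum_congr rfl fun v _ => ?_
      rw [Real.log_pow, hlog]
    · intro v _
      rw [norm_sy]
      exact pow_ne_zero _ (mul_pos (hvx v) (Real.exp_pos _)).ne'
  unfold GG Gm
  rw [Finset.prod_mul_distrib]
  have h1 : ∏ v : InfinitePlace K, (sy y x v / ((‖sy y x v‖ : ℝ) : ℂ)) ^ k v = ag k x := by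
    unfold ag
    refine Finset.prod_congr rfl fun v _ => ?_
    rw [norm_sy]
    congr 1
    unfold sy
    have h2 : ((Real.exp (y v / 2) : ℝ) : ℂ) ≠ 0 := by
      exact_mod_cast (Real.exp_pos _).ne'
    rw [Complex.ofReal_mul, mul_div_mul_right _ _ h2]
  rw [h1, ← Complex.exp_sum, mul_assoc (ag k x), mul_assoc (ag k x)]
  congr 1
  unfold ph
  rw [← Complex.exp_add, ← Complex.exp_add]
  congr 1
  rw [hnv]
  push_cast
  rw [Finset.sum_mul, Finset.sum_mul, Finset.mul_sum, ← Finset.sum_add_distrib,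
    ← Finset.sum_add_distrib]
  refine Finset.sum_congr rfl fun v _ => ?_
  rw [hlog]
  unfold mp
  push_cast
  ring

open scoped Classical in
/-- (IN) -/
theorem pf_P_IN (hCG : U_CG) (hAG : U_AG) (hNV : K_NV) (hNB : K_NB) : P_IN := by
  intro K _ _ f hf χ M κ X B t v hM hκ hκ1 hX hB hWt z τ σ hσ
  obtain ⟨g, hgm, hgb, hgv⟩ := hWt σ hσ
  set y := yM K M τ z with hy
  obtain ⟨hbt0, hnvbt, hnv1, -, -, hbt⟩ := hNV K M y hM
  have hbt' : bt M y = Real.exp (-τ) := hbt τ z
  have hcg := (hCG K f χ M hf hM).1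
  obtain ⟨-, hag1, -, -, -, -⟩ := hAG K χ.k
  have hph1 : ∀ x : K, ‖ph χ.ν x‖ = 1 := by
    intro x
    unfold ph
    exact Complex.norm_exp_ofReal_mul_I _
  set s : ℝ → ℂ := fun u => 1 / 2 + σ + (t + u : ℝ) * I with hs
  set E : ℂ := cexp (((∑ v, (v.mult : ℝ) * χ.ν v * (y v / 2) : ℝ) : ℂ) * I) with hE
  have hEn : ‖E‖ = 1 := Complex.norm_exp_ofReal_mul_I _
  have hE0 : E ≠ 0 := by
    intro h
    rw [h, norm_zero] at hEn
    exact zero_ne_one hEn
  -- the finite set
  have hn : 0 < Module.finrank ℚ K := Module.finrank_pos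
  obtain ⟨_, _, hNB'⟩ := hNB (Module.finrank ℚ K) hn
  have hfin0 := (hNB' K rfl M y (fun _ => 17 / 8) hM (fun _ => by norm_num)).1
  set S : Finset K := hfin0.toFinset with hS
  have hSM : ∀ x ∈ S, x ∈ M ∧ x ≠ 0 := by
    intro x hx
    have h1 := (hfin0.mem_toFinset).1 hx
    exact ⟨h1.1, h1.2.1⟩
  have hSc : ∀ x ∈ M, x ∉ S → PK (sy y x) = 0 := by
    intro x hx hxS
    by_contra h
    by_cases hx0 : x = 0
    · rw [hx0] at h
      exact h (PK_zero y)
    · exact hxS ((hfin0.mem_toFinset).2 ⟨hx, hx0, fun v => (PK_ne h v).2⟩)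
  -- the two sums are finite
  have hsum1 : ∑' x : {x : K // x ∈ M ∧ x ≠ 0}, χ.ψ (idl K M x) *
        v (Ideal.absNorm (idl K M x)) * (Ideal.absNorm (idl K M x.1) : ℂ) ^ (-(t * I : ℂ)) *
          ((PK (sy y x.1) : ℝ) : ℂ) = ∑ x ∈ S, χ.ψ (idl K M x) *
        v (Ideal.absNorm (idl K M x)) * (Ideal.absNorm (idl K M x) : ℂ) ^ (-(t * I : ℂ)) *
          ((PK (sy y x) : ℝ) : ℂ) := by
    have h1 := (Finset.sum_subtype_of_mem (s := S) (p := fun x => x ∈ M ∧ x ≠ 0)
      (fun x => χ.ψ (idl K M x) *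
        v (Ideal.absNorm (idl K M x)) * (Ideal.absNorm (idl K M x) : ℂ) ^ (-(t * I : ℂ)) *
          ((PK (sy y x) : ℝ) : ℂ)) hSM)
    rw [← h1]
    refine tsum_eq_sum fun x hx => ?_
    rw [Finset.mem_subtype] at hx
    rw [hSc x.1 x.2.1 hx, Complex.ofReal_zero, mul_zero]
  have hsum2 : ∀ μ : InfinitePlace K → ℂ, SS χ M y μ =
      ∑ x ∈ S, cg χ M x * (((PK (sy y x) : ℝ) : ℂ) * GG χ.k μ (sy y x)) := by
    intro μ
    unfold SS
    have h1 := (Finset.sum_subtype_of_mem (s := S) (p := fun x => x ∈ M)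
      (fun x => cg χ M x * (((PK (sy y x) : ℝ) : ℂ) * GG χ.k μ (sy y x)))
      (fun x hx => (hSM x hx).1))
    rw [← h1]
    refine tsum_eq_sum fun x hx => ?_
    rw [Finset.mem_subtype] at hx
    rw [hSc x.1 x.2 hx, Complex.ofReal_zero, zero_mul, mul_zero]
  -- one term
  have hterm : ∀ x ∈ S, Integrable (fun u : ℝ => g u * (E⁻¹ * cexp (τ * s u)) *
        (cg χ M x * (((PK (sy y x) : ℝ) : ℂ) * GG χ.k (mp χ.ν σ (t + u)) (sy y x)))) ∧
      χ.ψ (idl K M x) * v (Ideal.absNorm (idl K M x)) *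
        (Ideal.absNorm (idl K M x) : ℂ) ^ (-(t * I : ℂ)) * ((PK (sy y x) : ℝ) : ℂ) =
        ∫ u : ℝ, g u * (E⁻¹ * cexp (τ * s u)) *
        (cg χ M x * (((PK (sy y x) : ℝ) : ℂ) * GG χ.k (mp χ.ν σ (t + u)) (sy y x))) := by
    intro x hx
    obtain ⟨hxM, hx0⟩ := hSM x hx
    have hnvx := hnvbt x hxM
    have hN1 : 1 ≤ nv y x * bt M y := hnv1 x hxM hx0
    set N : ℝ := (Ideal.absNorm (idl K M x) : ℝ) with hNd
    have hNf : Nf K (idl K M x) = N := rfl
    rw [hNf] at hnvx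
    have hN : 0 < N := by
      rw [← hnvx]
      linarith
    have hN' : (N : ℂ) ≠ 0 := by exact_mod_cast hN.ne'
    have hNcast : (Ideal.absNorm (idl K M x) : ℂ) = (N : ℂ) := by
      rw [hNd]
      norm_cast
    have hnvpos : 0 < nv y x := by
      have : 0 < nv y x * bt M y := by linarith
      exact (mul_pos_iff_of_pos_right hbt0).1 this
    have hlog : Real.log (nv y x) = Real.log N + τ := by
      rw [← hnvx, Real.log_mul hnvpos.ne' hbt0.ne', hbt', Real.log_exp]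
      ring
    have h1 : ∀ u : ℝ, g u * (E⁻¹ * cexp (τ * s u)) *
        (cg χ M x * (((PK (sy y x) : ℝ) : ℂ) * GG χ.k (mp χ.ν σ (t + u)) (sy y x))) =
        (g u * (N : ℂ) ^ (-(1 / 2 + σ + u * I : ℂ))) *
          (χ.ψ (idl K M x) * (N : ℂ) ^ (-(t * I : ℂ)) * ((PK (sy y x) : ℝ) : ℂ)) := by
      intro u
      rw [hcg x hxM hx0, GG_sy χ.k χ.ν σ (t + u) y hx0, hlog]
      have h2 : (starRingEnd ℂ) (ag χ.k x) * ag χ.k x = 1 := by
        rw [mul_comm, Complex.mul_conj, Complex.normSq_eq_norm_sq, hag1 x hx0]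
        norm_num
      have h3 : (starRingEnd ℂ) (ph χ.ν x) * ph χ.ν x = 1 := by
        rw [mul_comm, Complex.mul_conj, Complex.normSq_eq_norm_sq, hph1 x]
        norm_num
      have h4 : cexp (τ * s u) * cexp (-(1 / 2 + σ + ((t + u : ℝ) : ℂ) * I) *
          ((Real.log N + τ : ℝ) : ℂ)) =
          (N : ℂ) ^ (-(1 / 2 + σ + u * I : ℂ)) * (N : ℂ) ^ (-(t * I : ℂ)) := by
        rw [Complex.cpow_def_of_ne_zero hN', Complex.cpow_def_of_ne_zero hN',
          ← Complex.ofReal_log hN.le, ← Complex.exp_add, ← Complex.exp_add]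
        congr 1
        rw [hs]
        push_cast
        ring
      have h5 : E⁻¹ * E = 1 := inv_mul_cancel₀ hE0
      rw [← hE]
      calc g u * (E⁻¹ * cexp (τ * s u)) * ((starRingEnd ℂ) (ag χ.k x) *
            (starRingEnd ℂ) (ph χ.ν x) * χ.ψ (idl K M x) * (((PK (sy y x) : ℝ) : ℂ) *
              (ag χ.k x * ph χ.ν x * E * cexp (-(1 / 2 + σ + ((t + u : ℝ) : ℂ) * I) *
                ((Real.log N + τ : ℝ) : ℂ))))) =
          g u * (E⁻¹ * E) * ((starRingEnd ℂ) (ag χ.k x) * ag χ.k x) *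
            ((starRingEnd ℂ) (ph χ.ν x) * ph χ.ν x) * χ.ψ (idl K M x) *
              ((PK (sy y x) : ℝ) : ℂ) * (cexp (τ * s u) *
                cexp (-(1 / 2 + σ + ((t + u : ℝ) : ℂ) * I) * ((Real.log N + τ : ℝ) : ℂ))) := by
            ring
        _ = _ := by
            rw [h2, h3, h4, h5]
            ring
    have h3 : Integrable (fun u : ℝ => g u * (N : ℂ) ^ (-(1 / 2 + σ + u * I : ℂ))) := by
      have hgauss : Integrable (fun u : ℝ => B * X ^ σ * N ^ (-(1 / 2 + σ)) *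
          Real.exp (-(1 / 4) * u ^ 2)) :=
        (integrable_exp_neg_mul_sq (by norm_num : (0 : ℝ) < 1 / 4)).const_mul _
      refine hgauss.mono' ?_ (Filter.Eventually.of_forall fun u => ?_)
      · refine (hgm.mul ?_).aestronglyMeasurable
        have : Continuous (fun u : ℝ => (N : ℂ) ^ (-(1 / 2 + σ + u * I : ℂ))) := by
          refine Continuous.const_cpow ?_ (Or.inl hN')
          fun_prop
        exact this.measurable
      · rw [norm_mul, Complex.norm_cpow_eq_rpow_re_of_pos hN]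
        have h4 : (-(1 / 2 + σ + u * I : ℂ)).re = -(1 / 2 + σ) := by
          simp
        rw [h4]
        have h5 := hgb u
        have h6 : Real.exp (-u ^ 2 / 4) = Real.exp (-(1 / 4) * u ^ 2) := by
          congr 1
          ring
        rw [h6] at h5
        calc ‖g u‖ * N ^ (-(1 / 2 + σ)) ≤
            (B * X ^ σ * Real.exp (-(1 / 4) * u ^ 2)) * N ^ (-(1 / 2 + σ)) :=
              mul_le_mul_of_nonneg_right h5 (Real.rpow_nonneg hN.le _)
          _ = _ := by ring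
    constructor
    · have := h3.mul_const
        (χ.ψ (idl K M x) * (N : ℂ) ^ (-(t * I : ℂ)) * ((PK (sy y x) : ℝ) : ℂ))
      refine this.congr (Filter.Eventually.of_forall fun u => ?_)
      exact (h1 u).symm
    · rw [integral_congr_ae (Filter.Eventually.of_forall h1), integral_mul_const, hNcast]
      rw [show v (Ideal.absNorm (idl K M x)) =
        ∫ u : ℝ, g u * (N : ℂ) ^ (-(1 / 2 + σ + u * I : ℂ)) from hgv N hN]
      ring
  rw [hsum1]
  have hmain : ∑ x ∈ S, χ.ψ (idl K M x) *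
        v (Ideal.absNorm (idl K M x)) * (Ideal.absNorm (idl K M x) : ℂ) ^ (-(t * I : ℂ)) *
          ((PK (sy y x) : ℝ) : ℂ) =
      ∫ u : ℝ, g u * (E⁻¹ * cexp (τ * s u)) * SS χ M y (mp χ.ν σ (t + u)) := by
    rw [Finset.sum_congr rfl fun x hx => (hterm x hx).2, ← integral_finsetSum _
      fun x hx => (hterm x hx).1]
    refine integral_congr_ae (Filter.Eventually.of_forall fun u => ?_)
    simp only
    rw [hsum2, Finset.mul_sum]
  rw [hmain, ofReal_norm]
  refine (enorm_integral_le_lintegral_enorm _).trans ?_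
  rw [← lintegral_const_mul' _ _ ENNReal.ofReal_ne_top]
  refine lintegral_mono fun u => ?_
  rw [← ofReal_norm, ← ENNReal.ofReal_mul (by positivity)]
  refine ENNReal.ofReal_le_ofReal ?_
  rw [norm_mul, norm_mul, norm_mul, norm_inv, hEn, inv_one, one_mul]
  have h7 : ‖cexp (τ * s u)‖ = Real.exp (τ * (1 / 2 + σ)) := by
    rw [Complex.norm_exp]
    congr 1
    rw [hs]
    simp
  rw [h7]
  calc ‖g u‖ * Real.exp (τ * (1 / 2 + σ)) * ‖SS χ M y (mp χ.ν σ (t + u))‖
      ≤ (B * X ^ σ * Real.exp (-u ^ 2 / 4)) * Real.exp (τ * (1 / 2 + σ)) *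
        ‖SS χ M y (mp χ.ν σ (t + u))‖ := by
        gcongr
        exact hgb u
    _ = _ := by ring

end Pool.Agent.H64.BH
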